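import Mathlib

set_option autoImplicit false

namespace Pool.Agent.H93.Pent

/-- The cross sum on one circuit equals the sum of the products of the differences. -/
theorem cross_sum {n : ℕ} [NeZero n] (a a' : ZMod n → ZMod 2) :
    ∑ i, ((a (i - 1) + a i) * a' i + a i * (a' (i - 1) + a' i)) =
      ∑ i, (a (i - 1) + a i) * (a' (i - 1) + a' i) := by
  have hs : ∑ i, a (i - 1) * a' (i - 1) = ∑ i, a i * a' i :=
    Fintype.sum_equiv (Equiv.subRight (1 : ZMod n)) _ _ (fun i => by simp)
  have e1 : ∀ i, (a (i - 1) + a i) * a' i + a i * (a' (i - 1) + a' i) =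
      (a (i - 1) + a i) * (a' (i - 1) + a' i) + (a (i - 1) * a' (i - 1) + a i * a' i) := by
    intro i
    have h2 : ∀ u v u' v' : ZMod 2, (u + v) * v' + v * (u' + v') =
        (u + v) * (u' + v') + (u * u' + v * v') := by decide
    exact h2 _ _ _ _
  rw [Finset.sum_congr rfl (fun i _ => e1 i), Finset.sum_add_distrib, Finset.sum_add_distrib, hs]
  have h0 : ∀ z : ZMod 2, z + z = 0 := by decide
  rw [h0, add_zero]

/-- The pairing identity for two pairs of edge sets with matching differences. -/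
theorem pairing {n : ℕ} [NeZero n] (p : Equiv.Perm (ZMod n)) (a b a' b' : ZMod n → ZMod 2)
    (h : ∀ i, a (i - 1) + a i = b (p i - 1) + b (p i))
    (h' : ∀ i, a' (i - 1) + a' i = b' (p i - 1) + b' (p i)) :
    ∑ i, ((a (i - 1) + a i) * (a' i + b' (p i)) + (a i + b (p i)) * (a' (i - 1) + a' i)) = 0 := by
  have e1 : ∀ i, (a (i - 1) + a i) * (a' i + b' (p i)) + (a i + b (p i)) * (a' (i - 1) + a' i) =
      ((a (i - 1) + a i) * a' i + a i * (a' (i - 1) + a' i)) +
      ((b (p i - 1) + b (p i)) * b' (p i) + b (p i) * (b' (p i - 1) + b' (p i))) := by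
    intro i
    rw [← h i, ← h' i]
    ring
  rw [Finset.sum_congr rfl (fun i _ => e1 i), Finset.sum_add_distrib, cross_sum]
  have e2 : ∑ i, ((b (p i - 1) + b (p i)) * b' (p i) + b (p i) * (b' (p i - 1) + b' (p i))) =
      ∑ j, ((b (j - 1) + b j) * b' j + b j * (b' (j - 1) + b' j)) :=
    Fintype.sum_equiv p _ _ (fun i => rfl)
  rw [e2, cross_sum]
  have e3 : ∑ j, (b (j - 1) + b j) * (b' (j - 1) + b' j) =
      ∑ i, (a (i - 1) + a i) * (a' (i - 1) + a' i) :=
    (Fintype.sum_equiv p _ _ (fun i => by rw [h i, h' i])).symm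
  rw [e3]
  have h0 : ∀ z : ZMod 2, z + z = 0 := by decide
  exact h0 _

end Pool.Agent.H93.Pent
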